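import Pool.Agent.Lib_helper45.Carpet.Final

/-!
# MP_32b4ed_gt: a convex-cocompact subgroup of `PU(2,1)` whose limit set is a Sierpinski carpet

There is a convex-cocompact subgroup `G` of `PU(2,1)` whose limit set is homeomorphic to the
Sierpinski carpet (Q1, affirmative answer). All the definitions used in the statement (`PU21`,
`actP`, `limitSet`, `hdist`, `GeodConvex`, `hull`, `ConvexCocompact`, `carpet`) are in the file
`Pool/Agent/Lib_helper45/Carpet/Defs.lean`.

The group is the image of the Coxeter group on `s₁, s₂, s₃, s₄` with `m₁₂ = m₃₄ = 2` and the other
labels `10`, the generators acting as complex reflections of order two. Exact linear matrix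
inequalities over `ℚ(√5, i)` along the paths of a finite automaton show that the orbit map is a
quasi-isometric embedding, and the same for the reflection representation of the same group in
`O(3,1)`. Hence the limit set in `S³` is homeomorphic to the limit set in `S²` of the Kleinian
group, which is the complement of a dense family of disjoint round open disks, and such a set is
shown to be homeomorphic to the Sierpinski carpet.
-/

namespace Pool.Agent.Results.MP_32b4ed_gt.CarpetLimitSet

open Pool.Agent.Carpet

/-- There is a convex-cocompact subgroup `G` of `PU(2,1)` (discrete, with a compact subset of the
complex hyperbolic plane whose translates cover the convex hull of the limit set) whose limit set,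
which does not depend on the base point, is homeomorphic to the Sierpinski carpet. -/
theorem result : ∃ G : Subgroup PU21, ConvexCocompact G ∧
    (∀ x : E2, ‖x‖ < 1 → limitSet G x = limitSet G 0) ∧
    Nonempty (limitSet G 0 ≃ₜ carpet) :=
  final

end Pool.Agent.Results.MP_32b4ed_gt.CarpetLimitSet
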